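import Pool.Agent.U987.SB.Fin

/-!
# Smooth Schoenflies for 3-spheres bounding an asymptotically affine ball

A smooth 3-sphere in `ℝ⁴` (so in `S⁴`) is given together with a parametrization `H` of the
topological ball which it bounds: `H` is continuous and injective on a neighbourhood of the closed
unit ball, and a local diffeomorphism near the unit sphere. If `H` is asymptotically affine at the
interior points where it is not a local diffeomorphism, in smooth parametrizations near these points
(at small scales `H` is close to affine maps, relative to the size of the affine map in every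
direction; the affine maps may become arbitrarily large or small, and arbitrarily distorted), then
the sphere is unknotted: some diffeomorphism of `ℝ⁴`, a linear isometry outside a compact set, agrees
with `H` near the unit sphere on the closed unit ball, maps the closed unit ball onto the ball bounded
by the sphere, and is as close to `H` on the closed unit ball as we please.
-/

set_option autoImplicit false

open Set Filter Topology Metric Function
open scoped ContDiff

namespace Pool.Agent.Results.MP_6c077c_gt.AsymptoticallyAffineBall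

/-- `ℝ⁴` -/
abbrev R4 : Type := EuclideanSpace ℝ (Fin 4)

/-- `H` is a local diffeomorphism at `x`: smooth near `x`, with bijective derivative at `x` -/
def LocDiff (H : R4 → R4) (x : R4) : Prop :=
  (∀ᶠ y in 𝓝 x, ContDiffAt ℝ ∞ H y) ∧ Bijective (fderiv ℝ H x)

/-- `F` is asymptotically affine at `0`: for every `ε > 0`, on all small balls with centre near `0`
there is an affine map `a + L` whose distance from `F` is at most `ε` times the radius times `‖L v‖`,
for every unit vector `v` -/
def AsymptoticallyAffine (F : R4 → R4) : Prop :=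
  ∀ ε > 0, ∃ δ > 0, ∀ (y : R4) (r : ℝ), ‖y‖ ≤ δ → 0 < r → r ≤ δ →
    ∃ (a : R4) (L : R4 →L[ℝ] R4), ∀ p, ‖p - y‖ ≤ r → ∀ v, ‖v‖ = 1 →
      ‖F p - (a + L p)‖ ≤ ε * (r * ‖L v‖)

/-- `H` is asymptotically affine at `x`, in some smooth parametrization `A` near `x` -/
def AsymptoticallyAffineAt (H : R4 → R4) (x : R4) : Prop :=
  ∃ A : R4 → R4, A 0 = x ∧ LocDiff A 0 ∧ AsymptoticallyAffine (fun p => H (A p))

/-- `G` is a diffeomorphism of `ℝ⁴`, equal to a linear isometry outside a compact set (so it extends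
to a diffeomorphism of `S⁴`) -/
def StandardAtInfinity (G : R4 → R4) : Prop :=
  ContDiff ℝ ∞ G ∧ (∃ K : R4 → R4, ContDiff ℝ ∞ K ∧ LeftInverse K G ∧ RightInverse K G) ∧
    ∃ (O : R4 ≃ₗᵢ[ℝ] R4) (R : ℝ), ∀ x, R ≤ ‖x‖ → G x = O x

theorem result (H : R4 → R4) (δ : ℝ) (hδ : 0 < δ) (hc : ContinuousOn H (ball 0 (1 + δ)))
    (hi : InjOn H (ball 0 (1 + δ))) (hs : ∀ x, 1 ≤ ‖x‖ → ‖x‖ < 1 + δ → LocDiff H x)
    (h : ∀ x, ‖x‖ < 1 → LocDiff H x ∨ AsymptoticallyAffineAt H x) :
    ∀ ε > 0, ∃ G : R4 → R4, StandardAtInfinity G ∧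
      (∃ s < 1, ∀ x, s ≤ ‖x‖ → ‖x‖ ≤ 1 → G x = H x) ∧
      G '' closedBall 0 1 = H '' closedBall 0 1 ∧ ∀ x, ‖x‖ ≤ 1 → ‖G x - H x‖ ≤ ε := by
  intro ε hε
  obtain ⟨G, O, R, hb, hL, h1, h2, h3, h4⟩ := Pool.Agent.U987.SB.finA 4 H δ hδ hc hi
    (fun x hx hx' => Pool.Agent.Y522.LD_of_bij (hs x hx hx').1 (hs x hx hx').2)
    (fun x hx hn => by
      rcases h x hx with h' | ⟨A, hA0, hA, hAA⟩
      · exact absurd (Pool.Agent.Y522.LD_of_bij h'.1 h'.2) hn
      · exact ⟨A, hA0, Pool.Agent.Y522.LD_of_bij hA.1 hA.2, hAA⟩) hε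
  obtain ⟨hG, hK⟩ := Pool.Agent.Y522.smooth_inverse hb hL
  exact ⟨G, ⟨hG, hK, O, R, h4⟩, h1, h2, h3⟩

end Pool.Agent.Results.MP_6c077c_gt.AsymptoticallyAffineBall
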