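import Pool.Agent.U987.SB.Fin
import Mathlib.NumberTheory.Real.GoldenRatio

/-!
# Smooth Schoenflies for 3-spheres bounding a ball of bi-Lipschitz distortion below the golden ratio

A smooth 3-sphere in `ℝ⁴` (so in `S⁴`) is given together with a parametrization `H` of the
topological ball which it bounds: `H` is continuous and injective on a neighbourhood of the closed
unit ball, and a local diffeomorphism near the unit sphere. If at every interior point where `H` is
not a local diffeomorphism `H` is bi-Lipschitz in some smooth parametrization, with constants `a` and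
`ρ a` for some `a > 0` and some `ρ` smaller than the golden ratio (both may depend on the point, and
`a` may be arbitrarily large or small), then the sphere is unknotted: some diffeomorphism of `ℝ⁴`, a
linear isometry outside a compact set, agrees with `H` near the unit sphere on the closed unit ball,
maps the closed unit ball onto the ball bounded by the sphere, and is as close to `H` on the closed
unit ball as we please.
-/

set_option autoImplicit false

open Set Filter Topology Metric Function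
open scoped ContDiff

namespace Pool.Agent.Results.MP_6c077c_gt.GoldenRatioBall

/-- `ℝ⁴` -/
abbrev R4 : Type := EuclideanSpace ℝ (Fin 4)

/-- `H` is a local diffeomorphism at `x`: smooth near `x`, with bijective derivative at `x` -/
def LocDiff (H : R4 → R4) (x : R4) : Prop :=
  (∀ᶠ y in 𝓝 x, ContDiffAt ℝ ∞ H y) ∧ Bijective (fderiv ℝ H x)

/-- `H` is bi-Lipschitz with distortion at most `ρ` at `x`: in a smooth parametrization `A` near
`x = A 0` the distances are multiplied by factors between `a` and `ρ a`, for some `a > 0` -/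
def BiLipschitzAt (H : R4 → R4) (ρ : ℝ) (x : R4) : Prop :=
  ∃ A : R4 → R4, A 0 = x ∧ LocDiff A 0 ∧ ∃ a r : ℝ, 0 < a ∧ 0 < r ∧
    ∀ p q : R4, ‖p‖ ≤ r → ‖q‖ ≤ r →
      a * ‖p - q‖ ≤ ‖H (A p) - H (A q)‖ ∧ ‖H (A p) - H (A q)‖ ≤ ρ * (a * ‖p - q‖)

/-- `G` is a diffeomorphism of `ℝ⁴`, equal to a linear isometry outside a compact set (so it extends
to a diffeomorphism of `S⁴`) -/
def StandardAtInfinity (G : R4 → R4) : Prop :=
  ContDiff ℝ ∞ G ∧ (∃ K : R4 → R4, ContDiff ℝ ∞ K ∧ LeftInverse K G ∧ RightInverse K G) ∧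
    ∃ (O : R4 ≃ₗᵢ[ℝ] R4) (R : ℝ), ∀ x, R ≤ ‖x‖ → G x = O x

theorem good_of_lt {ρ : ℝ} (h1 : 1 ≤ ρ) (h2 : ρ < Real.goldenRatio) :
    Pool.Agent.U211.BL.Good 4 ρ := by
  have h3 : Real.goldenRatio ^ 2 = Real.goldenRatio + 1 := Real.goldenRatio_sq
  have h4 : Real.goldenRatio < 2 := Real.goldenRatio_lt_two
  have h5 : Real.sqrt ((4 : ℕ) : ℝ) = 2 := by
    rw [show (((4 : ℕ) : ℝ)) = 2 ^ 2 by norm_num]
    exact Real.sqrt_sq (by norm_num)
  refine ⟨h1, by linarith, ?_⟩
  rw [h5]
  nlinarith [Real.one_lt_goldenRatio]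

theorem result (H : R4 → R4) (δ : ℝ) (hδ : 0 < δ) (hc : ContinuousOn H (ball 0 (1 + δ)))
    (hi : InjOn H (ball 0 (1 + δ))) (hs : ∀ x, 1 ≤ ‖x‖ → ‖x‖ < 1 + δ → LocDiff H x)
    (h : ∀ x, ‖x‖ < 1 → LocDiff H x ∨ ∃ ρ < Real.goldenRatio, BiLipschitzAt H ρ x) :
    ∀ ε > 0, ∃ G : R4 → R4, StandardAtInfinity G ∧
      (∃ s < 1, ∀ x, s ≤ ‖x‖ → ‖x‖ ≤ 1 → G x = H x) ∧
      G '' closedBall 0 1 = H '' closedBall 0 1 ∧ ∀ x, ‖x‖ ≤ 1 → ‖G x - H x‖ ≤ ε := by
  intro ε hε
  obtain ⟨G, O, R, hb, hL, h1, h2, h3, h4⟩ := Pool.Agent.U987.SB.finP 4 H δ hδ hc hi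
    (fun x hx hx' => Pool.Agent.Y522.LD_of_bij (hs x hx hx').1 (hs x hx hx').2)
    (fun x hx hn => by
      rcases h x hx with h' | ⟨ρ, hρ, A, hA0, hA, a, r, ha, hr0, h⟩
      · exact absurd (Pool.Agent.Y522.LD_of_bij h'.1 h'.2) hn
      · refine ⟨max ρ 1, good_of_lt (le_max_right _ _)
          (max_lt hρ Real.one_lt_goldenRatio), A, hA0, Pool.Agent.Y522.LD_of_bij hA.1 hA.2, a, r,
          ha, hr0, fun p q hp hq => ?_⟩
        obtain ⟨h3, h4⟩ := h p q hp hq
        refine ⟨h3, h4.trans ?_⟩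
        exact mul_le_mul_of_nonneg_right (le_max_left _ _)
          (mul_nonneg ha.le (norm_nonneg _))) hε
  obtain ⟨hG, hK⟩ := Pool.Agent.Y522.smooth_inverse hb hL
  exact ⟨G, ⟨hG, hK, O, R, h4⟩, h1, h2, h3⟩

end Pool.Agent.Results.MP_6c077c_gt.GoldenRatioBall
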