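import Pool.Agent.U211.LK.Fin

/-!
# MP_6c077c_gt, Q1: long 3-knots in `ℝ⁴` of local distortion less than `√3` are trivial

Q1 asks whether every smooth 3-sphere in `S⁴` is unknotted. After a diffeomorphism of `S⁴` such a
sphere is the closure of a long knot: the image of a smooth embedding `F : ℝ³ → ℝ⁴` which is a linear
isometric inclusion `ι` off a compact set. We show: `F` is isotopic to `ι`, through smooth embeddings
equal to `ι` off a fixed compact set, if for some `r > 0` and `δ < 1/2` one has `|F(x) - ι(x)| ≤ δ r`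
and `F` has distortion at most `ρ < √3` on every ball of radius `(1 + δ) r`, where the factor may
depend on the ball. At smaller scales the derivatives may turn by arbitrary angles. If the distortion
is smaller than `√3` globally, then no other condition is needed. So the sphere is unknotted.

The theorem is true for `F : ℝⁿ → ℝᵈ`, with `(ρ² - 1) √(n + 1) < ρ² + 1` and `δ √n < 1`.

Proof: mollification with all radii `t ≤ r`. Points at distance more than `2 δ r` are separated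
because `F` is close to `ι`; for all other `x ≠ y` the difference `F_t(x) - F_t(y)` has positive
scalar product with `F(c + λ w) - F(c - λ w)`, where `c` is the midpoint, `w` the direction of `x - y`
and `λ` depends on `t` and on `|x - y|`. The radius `r` is reached where the derivative of `F_r - ι`
is less than one, and the straight line finishes the isotopy.
-/

set_option autoImplicit false

open Set Filter Topology Metric Function
open scoped Manifold ContDiff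

namespace Pool.Agent.Results.MP_6c077c_gt.LongKnotsOfSmallLocalDistortion

/-- `ℝⁿ` -/
abbrev R (n : ℕ) : Type := EuclideanSpace ℝ (Fin n)

section

variable {n d : ℕ}

/-- `F` is a smooth map, equal to the linear isometric inclusion `ι` off a compact set -/
def IsLong (ι : R n →ₗᵢ[ℝ] R d) (F : R n → R d) : Prop :=
  ContDiff ℝ ∞ F ∧ ∃ C, ∀ x, C ≤ ‖x‖ → F x = ι x

/-- `F` is `δ r`-close to `ι` and has distortion at most `ρ` in every ball of radius `(1 + δ) r`: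
the distances are multiplied by factors between `a` and `ρ a`, where `a > 0` may depend on the ball -/
def IsMild (ι : R n →ₗᵢ[ℝ] R d) (ρ δ r : ℝ) (F : R n → R d) : Prop :=
  (∀ x, ‖F x - ι x‖ ≤ δ * r) ∧ ∀ x, ∃ a > 0, ∀ p q, ‖p - x‖ ≤ (1 + δ) * r →
    ‖q - x‖ ≤ (1 + δ) * r → a * ‖p - q‖ ≤ ‖F p - F q‖ ∧ ‖F p - F q‖ ≤ ρ * (a * ‖p - q‖)

/-- `f` is a smooth injective immersion -/
def IsEmb (f : R n → R d) : Prop :=
  ContDiff ℝ ∞ f ∧ Injective f ∧ ∀ x w : R n, w ≠ 0 → fderiv ℝ f x w ≠ 0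

/-- `K` is a smooth isotopy from `ι` to `F` with compact support -/
def IsIsotopy (ι : R n →ₗᵢ[ℝ] R d) (F : R n → R d) (K : ℝ × R n → R d) : Prop :=
  ContDiff ℝ ∞ K ∧ (∀ t, IsEmb (fun x => K (t, x))) ∧ (∀ x, K (0, x) = ι x) ∧
    (∀ x, K (1, x) = F x) ∧ ∃ C, ∀ t x, C ≤ ‖x‖ → K (t, x) = ι x

end

open Pool.Agent.U211.LK in
theorem gen {n d : ℕ} {ι : R n →ₗᵢ[ℝ] R d} {F : R n → R d} {ρ δ r : ℝ} (hF : IsLong ι F)
    (hρ : (ρ ^ 2 - 1) * Real.sqrt (n + 1) < ρ ^ 2 + 1) (hδ : δ * Real.sqrt n < 1) (hr : 0 < r)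
    (hM : IsMild ι ρ δ r F) : ∃ K, IsIsotopy ι F K := by
  obtain ⟨hs, C, hC⟩ := hF
  obtain ⟨hcl, hd⟩ := hM
  obtain ⟨σ, hσ⟩ : ∃ σ, σ = max ρ 1 := ⟨_, rfl⟩
  have hσ1 : 1 ≤ σ := by rw [hσ]; exact le_max_right _ _
  have hσ2 : (σ ^ 2 - 1) * Real.sqrt (n + 1) < σ ^ 2 + 1 := by
    rw [hσ]
    rcases le_total ρ 1 with h1 | h1
    · rw [max_eq_right h1]
      norm_num
    · rwa [max_eq_left h1]
  have hd' : ∀ x : R n, ∃ a > 0, ∀ p q : R n, ‖p - x‖ ≤ (1 + δ) * r → ‖q - x‖ ≤ (1 + δ) * r →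
      a * ‖p - q‖ ≤ ‖F p - F q‖ ∧ ‖F p - F q‖ ≤ σ * (a * ‖p - q‖) := by
    intro x
    obtain ⟨a, ha, hx⟩ := hd x
    refine ⟨a, ha, fun p q hp hq => ⟨(hx p q hp hq).1, (hx p q hp hq).2.trans ?_⟩⟩
    rw [hσ]
    exact mul_le_mul_of_nonneg_right (le_max_left _ _) (by positivity)
  obtain ⟨X, hX⟩ : ∃ X : ℝ, X = (σ ^ 2 - 1) ^ 2 := ⟨_, rfl⟩
  obtain ⟨Y, hY⟩ : ∃ Y : ℝ, Y = (σ ^ 2 + 1) ^ 2 := ⟨_, rfl⟩
  have hX0 : 0 ≤ X := by rw [hX]; positivity
  have hs2 : Real.sqrt (n + 1) ^ 2 = n + 1 := Real.sq_sqrt (by positivity)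
  have hXY : X * (1 + n) < Y := by
    have h0 : 0 ≤ (σ ^ 2 - 1) * Real.sqrt (n + 1) := by
      have : 0 ≤ σ ^ 2 - 1 := by nlinarith
      positivity
    have h1 : ((σ ^ 2 - 1) * Real.sqrt (n + 1)) ^ 2 < (σ ^ 2 + 1) ^ 2 := by gcongr
    rw [mul_pow, hs2] at h1
    rw [hX, hY]
    linarith
  have hn0 : (0 : ℝ) ≤ n := Nat.cast_nonneg n
  have hYX : 0 < Y - X := by nlinarith
  obtain ⟨z, hz⟩ : ∃ z : ℝ, z = X * n / (Y - X) := ⟨_, rfl⟩
  have hz0 : 0 ≤ z := by rw [hz]; positivity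
  have hz1 : z < 1 := by
    rw [hz, div_lt_one hYX]
    linarith
  obtain ⟨r₀, hr⟩ : ∃ r₀ : ℝ, r₀ = max ((1 + z) / 2) ((1 + δ * Real.sqrt n) / 2) := ⟨_, rfl⟩
  have hra : (1 + z) / 2 ≤ r₀ := by rw [hr]; exact le_max_left _ _
  have hrb : (1 + δ * Real.sqrt n) / 2 ≤ r₀ := by rw [hr]; exact le_max_right _ _
  have hr0 : 0 < r₀ := by linarith
  have hr1 : r₀ < 1 := by
    rw [hr]
    exact max_lt (by linarith) (by linarith)
  have hrz : z < r₀ ^ 2 := by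
    have h1 : z < ((1 + z) / 2) ^ 2 := by nlinarith [sq_pos_of_pos (sub_pos.2 hz1)]
    have h2 : ((1 + z) / 2) ^ 2 ≤ r₀ ^ 2 := by gcongr
    linarith
  have hδ' : δ * Real.sqrt n < r₀ := by linarith
  have hN : ∀ m > 0, NC n r₀ m (σ * m) := by
    intro a ha
    unfold NC
    have h1 : X * n < r₀ ^ 2 * (Y - X) := by
      rw [hz, div_lt_iff₀ hYX] at hrz
      exact hrz
    have h2 : (Real.sqrt n / r₀) ^ 2 = n / r₀ ^ 2 := by
      rw [div_pow, Real.sq_sqrt hn0]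
    have h3 : X * (1 + n / r₀ ^ 2) < Y := by
      have h4 : X * (1 + n / r₀ ^ 2) = (X * r₀ ^ 2 + X * n) / r₀ ^ 2 := by field_simp
      rw [h4, div_lt_iff₀ (by positivity)]
      linarith
    rw [h2]
    have h5 : ((σ * a) ^ 2 - a ^ 2) ^ 2 * (1 + n / r₀ ^ 2) = a ^ 4 * (X * (1 + n / r₀ ^ 2)) := by
      rw [hX]
      ring
    have h6 : ((σ * a) ^ 2 + a ^ 2) ^ 2 = a ^ 4 * Y := by
      rw [hY]
      ring
    rw [h5, h6]
    exact mul_lt_mul_of_pos_left h3 (by positivity)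
  obtain ⟨K⟩ := Pool.Agent.U211.BL.exists_ker n hr0 hr1
  obtain ⟨k, h1, h2, h3, h4, h5⟩ := exists_isotopy K (A := ι.toContinuousLinearMap) hr0
    (fun x => ι.norm_map x) hs hC hcl ‹0 < r› hσ1 hd' hN hδ'
  refine ⟨k, h1, fun t => ⟨h1.comp (contDiff_prodMk_right t), (h5 t).1, (h5 t).2⟩, h2, h3,
    C + r, h4⟩

/-- **Long knots of small local distortion are trivial.** -/
theorem result :
    (∀ (n d : ℕ) (ι : R n →ₗᵢ[ℝ] R d) (F : R n → R d) (ρ δ r : ℝ), IsLong ι F →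
      (ρ ^ 2 - 1) * Real.sqrt (n + 1) < ρ ^ 2 + 1 → δ * Real.sqrt n < 1 → 0 < r →
      IsMild ι ρ δ r F → ∃ K, IsIsotopy ι F K) ∧
    (∀ (ι : R 3 →ₗᵢ[ℝ] R 4) (F : R 3 → R 4), IsLong ι F →
      ((∃ ρ δ r : ℝ, ρ < Real.sqrt 3 ∧ δ < 1 / 2 ∧ 0 < r ∧ IsMild ι ρ δ r F) ∨
        ∃ ρ a : ℝ, ρ < Real.sqrt 3 ∧ 0 < a ∧
          ∀ p q, a * ‖p - q‖ ≤ ‖F p - F q‖ ∧ ‖F p - F q‖ ≤ ρ * (a * ‖p - q‖)) →
      ∃ K, IsIsotopy ι F K) := by
  refine ⟨fun n d ι F ρ δ r hF hρ hδ hr hM => gen hF hρ hδ hr hM, fun ι F hF hcase => ?_⟩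
  have h3 : Real.sqrt 3 ^ 2 = 3 := Real.sq_sqrt (by norm_num)
  have h30 : 0 < Real.sqrt 3 := Real.sqrt_pos.2 (by norm_num)
  have h31 : Real.sqrt 3 < 2 := by nlinarith
  have h4 : Real.sqrt (((3 : ℕ) : ℝ) + 1) = 2 := by
    rw [show (((3 : ℕ) : ℝ) + 1) = 2 ^ 2 by norm_num]
    exact Real.sqrt_sq (by norm_num)
  have hn3 : Real.sqrt ((3 : ℕ) : ℝ) = Real.sqrt 3 := by norm_num
  have key : ∀ ρ : ℝ, 0 ≤ ρ → ρ < Real.sqrt 3 →
      (ρ ^ 2 - 1) * Real.sqrt (((3 : ℕ) : ℝ) + 1) < ρ ^ 2 + 1 := by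
    intro ρ h0 hρ
    have h1 : ρ ^ 2 < 3 := by nlinarith
    rw [h4]
    linarith
  have fin : ∀ ρ δ r : ℝ, ρ < Real.sqrt 3 → δ ≤ 1 / 2 → 0 < r → IsMild ι ρ δ r F →
      ∃ K, IsIsotopy ι F K := by
    intro ρ δ r hρ hδ hr hM
    refine gen hF (key (max ρ 0) (le_max_right _ _) (max_lt hρ h30)) (δ := δ) (r := r) ?_ hr
      ⟨hM.1, fun x => ?_⟩
    · rw [hn3]
      nlinarith
    · obtain ⟨b, hb, hx⟩ := hM.2 x
      refine ⟨b, hb, fun p q hp hq => ⟨(hx p q hp hq).1, (hx p q hp hq).2.trans ?_⟩⟩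
      exact mul_le_mul_of_nonneg_right (le_max_left _ _) (by positivity)
  rcases hcase with ⟨ρ, δ, r, hρ, hδ, hr, hM⟩ | ⟨ρ, a, hρ, ha, hD⟩
  · exact fin ρ δ r hρ hδ.le hr hM
  · obtain ⟨hFs, C, hC⟩ := hF
    have hcont : Continuous fun x => F x - ι x := hFs.continuous.sub ι.continuous
    obtain ⟨b, hb⟩ := (isCompact_closedBall (0 : R 3) C).exists_bound_of_continuousOn
      (f := fun x => F x - ι x) hcont.continuousOn
    have hb' : ∀ x, ‖F x - ι x‖ ≤ max b 0 := by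
      intro x
      rcases le_total ‖x‖ C with h | h
      · exact (hb x (by simpa using h)).trans (le_max_left _ _)
      · rw [hC x h, sub_self, norm_zero]
        exact le_max_right _ _
    refine fin ρ (1 / 2) (2 * max b 0 + 1) hρ le_rfl ?_ ⟨fun x => ?_, fun x =>
      ⟨a, ha, fun p q _ _ => hD p q⟩⟩
    · have := le_max_right b 0
      linarith
    · have := hb' x
      linarith

end Pool.Agent.Results.MP_6c077c_gt.LongKnotsOfSmallLocalDistortion
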