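import Pool.Agent.U211.SPH.Fin

/-!
# MP_6c077c_gt, Q1: 3-spheres in `ℝ⁴` of distortion less than the golden ratio are unknotted

Q1 asks whether every smooth 3-sphere in `S⁴` is unknotted. Such a sphere misses a point, so it is the
image of a smooth embedding `j : S³ → ℝ⁴`. We show: if for some parametrization `j` of the sphere and
some `a > 0`

`a |p - q| ≤ |j(p) - j(q)| ≤ ρ a |p - q|` for all `p, q ∈ S³`, with `ρ < (1 + √5) / 2`,

then `j` is isotopic, through smooth embeddings of `S³` in `ℝ⁴`, to the restriction of a linear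
automorphism of `ℝ⁴`, whose image is an ellipsoid. So the sphere is unknotted (isotopy extension). No
extension of `j` to the ball and no Morse condition is used, `j` may have wild rotations at all scales.

The theorem is true for the spheres `Sⁿ⁻¹` in every space `ℝᵈ`, with the condition
`(ρ² - 1) √(n + 1) < ρ² + 1`: embeddings of so small distortion are isotopic to linear ones; in
particular there are no such knots in codimension two.

Proof: let `J` be the cone over `j`, `J(z) = |z| j(z / |z|)`, and `F_t(x)` the mean of `J` over the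
ball of radius `t` about `x` (with a smooth radial kernel), `0 < t < ∞`. For `|x| = |y| = 1` the
difference `F_t(x) - F_t(y)` has positive scalar product with `j(p) - j(Rp)`, where `R` is the
reflection which exchanges `x` and `y`, and `p` is a point of the sphere which depends on the scale:
for points at small distance compared to `t` one differentiates, otherwise one estimates directly, and
the two ranges overlap for `ρ` as above. So the `F_t` are embeddings of the sphere; for `t = 0` one has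
`j` and for `t → ∞` the maps converge to a linear map, after a translation.
-/

set_option autoImplicit false

open Set Filter Topology Metric Function
open scoped Manifold ContDiff

namespace Pool.Agent.Results.MP_6c077c_gt.SmallDistortionSpheres

/-- `ℝⁿ` -/
abbrev R (n : ℕ) : Type := EuclideanSpace ℝ (Fin n)

section

variable {n d : ℕ}

/-- `f`, defined near the unit sphere of `ℝⁿ`, is smooth there -/
def IsSmoothOnSphere (f : R n → R d) : Prop := ∀ x, ‖x‖ = 1 → ContDiffAt ℝ ∞ f x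

/-- `f` restricts to a smooth embedding of the unit sphere of `ℝⁿ` in `ℝᵈ`: it is smooth, injective on
the sphere, and the derivative is injective on the tangent spaces of the sphere -/
def IsSphereEmbedding (f : R n → R d) : Prop :=
  IsSmoothOnSphere f ∧ (∀ x y : R n, ‖x‖ = 1 → ‖y‖ = 1 → f x = f y → x = y) ∧
    ∀ x w : R n, ‖x‖ = 1 → inner ℝ x w = 0 → w ≠ 0 → fderiv ℝ f x w ≠ 0

/-- on the unit sphere `f` multiplies the distances by factors between `a` and `ρ a`, for some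
`a > 0` -/
def HasDistortion (ρ : ℝ) (f : R n → R d) : Prop :=
  ∃ a > 0, ∀ p q : R n, ‖p‖ = 1 → ‖q‖ = 1 →
    a * ‖p - q‖ ≤ ‖f p - f q‖ ∧ ‖f p - f q‖ ≤ ρ * (a * ‖p - q‖)

/-- `K` is a smooth isotopy, through smooth embeddings of the unit sphere of `ℝⁿ` in `ℝᵈ`, from the
restriction of `f` to the restriction of `g` -/
def IsIsotopy (f g : R n → R d) (K : ℝ × R n → R d) : Prop :=
  (∀ t x, ‖x‖ = 1 → ContDiffAt ℝ ∞ K (t, x)) ∧ (∀ t, IsSphereEmbedding (fun x => K (t, x))) ∧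
    (∀ x, ‖x‖ = 1 → K (0, x) = f x) ∧ ∀ x, ‖x‖ = 1 → K (1, x) = g x

end

open Pool.Agent.U211.SPH in
theorem gen {n d : ℕ} {j : R n → R d} {ρ : ℝ} (hs : IsSmoothOnSphere j)
    (hρ : (ρ ^ 2 - 1) * Real.sqrt (n + 1) < ρ ^ 2 + 1) (hd : HasDistortion ρ j) :
    ∃ (A : R n →L[ℝ] R d) (K : ℝ × R n → R d), Injective A ∧ IsIsotopy A j K := by
  obtain ⟨a, ha, hj⟩ := hd
  obtain ⟨σ, hσ⟩ : ∃ σ, σ = max ρ 1 := ⟨_, rfl⟩
  have hσ1 : 1 ≤ σ := by rw [hσ]; exact le_max_right _ _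
  have hσ2 : (σ ^ 2 - 1) * Real.sqrt (n + 1) < σ ^ 2 + 1 := by
    rw [hσ]
    rcases le_total ρ 1 with h1 | h1
    · rw [max_eq_right h1]
      norm_num
    · rwa [max_eq_left h1]
  have hjS : OnS j a (σ * a) := by
    intro p q hp hq
    refine ⟨(hj p q hp hq).1, (hj p q hp hq).2.trans ?_⟩
    rw [mul_assoc, hσ]
    exact mul_le_mul_of_nonneg_right (le_max_left _ _) (by positivity)
  obtain ⟨X, hX⟩ : ∃ X : ℝ, X = (σ ^ 2 - 1) ^ 2 := ⟨_, rfl⟩
  obtain ⟨Y, hY⟩ : ∃ Y : ℝ, Y = (σ ^ 2 + 1) ^ 2 := ⟨_, rfl⟩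
  have hX0 : 0 ≤ X := by rw [hX]; positivity
  have hs2 : Real.sqrt (n + 1) ^ 2 = n + 1 := Real.sq_sqrt (by positivity)
  have hXY : X * (1 + n) < Y := by
    have h0 : 0 ≤ (σ ^ 2 - 1) * Real.sqrt (n + 1) := by
      have : 0 ≤ σ ^ 2 - 1 := by nlinarith
      positivity
    have h1 : ((σ ^ 2 - 1) * Real.sqrt (n + 1)) ^ 2 < (σ ^ 2 + 1) ^ 2 := by gcongr
    rw [mul_pow, hs2] at h1
    rw [hX, hY]
    linarith
  have hn0 : (0 : ℝ) ≤ n := Nat.cast_nonneg n
  have hYX : 0 < Y - X := by nlinarith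
  obtain ⟨z, hz⟩ : ∃ z : ℝ, z = X * n / (Y - X) := ⟨_, rfl⟩
  have hz0 : 0 ≤ z := by rw [hz]; positivity
  have hz1 : z < 1 := by
    rw [hz, div_lt_one hYX]
    linarith
  obtain ⟨r₀, hr⟩ : ∃ r₀ : ℝ, r₀ = (1 + z) / 2 := ⟨_, rfl⟩
  have hr0 : 0 < r₀ := by rw [hr]; linarith
  have hr1 : r₀ < 1 := by rw [hr]; linarith
  have hrz : z < r₀ ^ 2 := by
    rw [hr]
    nlinarith [sq_pos_of_pos (sub_pos.2 hz1)]
  have hN : NC n r₀ a (σ * a) := by
    unfold NC
    have h1 : X * n < r₀ ^ 2 * (Y - X) := by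
      rw [hz, div_lt_iff₀ hYX] at hrz
      exact hrz
    have h2 : (Real.sqrt n / r₀) ^ 2 = n / r₀ ^ 2 := by
      rw [div_pow, Real.sq_sqrt hn0]
    have h3 : X * (1 + n / r₀ ^ 2) < Y := by
      have h4 : X * (1 + n / r₀ ^ 2) = (X * r₀ ^ 2 + X * n) / r₀ ^ 2 := by field_simp
      rw [h4, div_lt_iff₀ (by positivity)]
      linarith
    rw [h2]
    have h5 : ((σ * a) ^ 2 - a ^ 2) ^ 2 * (1 + n / r₀ ^ 2) = a ^ 4 * (X * (1 + n / r₀ ^ 2)) := by
      rw [hX]
      ring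
    have h6 : ((σ * a) ^ 2 + a ^ 2) ^ 2 = a ^ 4 * Y := by
      rw [hY]
      ring
    rw [h5, h6]
    exact mul_lt_mul_of_pos_left h3 (by positivity)
  obtain ⟨K⟩ := Pool.Agent.U211.BL.exists_ker n hr0 hr1
  obtain ⟨A, k, h1, h2, h3, h4, h5⟩ := exists_isotopy K hr0 ha (by nlinarith) hjS hN hs
  refine ⟨A, k, h1, h2, fun t => ⟨fun x hx => ?_, (h5 t).1, (h5 t).2⟩, fun x _ => h3 x, h4⟩
  exact ContDiffAt.comp x (f := fun x => (t, x)) (h2 t x hx)
    (contDiff_prodMk_right t).contDiffAt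

/-- **Spheres of small distortion are unknotted.** -/
theorem result :
    (∀ (n d : ℕ) (j : R n → R d) (ρ : ℝ), IsSmoothOnSphere j →
      (ρ ^ 2 - 1) * Real.sqrt (n + 1) < ρ ^ 2 + 1 → HasDistortion ρ j →
      ∃ (A : R n →L[ℝ] R d) (K : ℝ × R n → R d), Injective A ∧ IsIsotopy A j K) ∧
    (∀ (j : R 4 → R 4) (ρ : ℝ), IsSmoothOnSphere j → ρ < (1 + Real.sqrt 5) / 2 →
      HasDistortion ρ j → ∃ (A : R 4 ≃L[ℝ] R 4) (K : ℝ × R 4 → R 4), IsIsotopy A j K) := by
  refine ⟨fun n d j ρ hs hρ hd => gen hs hρ hd, fun j ρ hs hρ hd => ?_⟩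
  have h5 : Real.sqrt 5 ^ 2 = 5 := Real.sq_sqrt (by norm_num)
  have h50 : 0 < Real.sqrt 5 := Real.sqrt_pos.2 (by norm_num)
  obtain ⟨σ, hσ⟩ : ∃ σ, σ = max ρ 1 := ⟨_, rfl⟩
  have hσ1 : 1 ≤ σ := by rw [hσ]; exact le_max_right _ _
  have h51 : 1 < Real.sqrt 5 := by nlinarith
  have hσ2 : σ < (1 + Real.sqrt 5) / 2 := by
    rw [hσ]
    exact max_lt hρ (by linarith)
  have hσ3 : σ ^ 2 < (3 + Real.sqrt 5) / 2 := by
    have h1 : σ ^ 2 < ((1 + Real.sqrt 5) / 2) ^ 2 := by gcongr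
    nlinarith
  have hc : (σ ^ 2 - 1) * Real.sqrt ((4 : ℕ) + 1) < σ ^ 2 + 1 := by
    have h1 : (((4 : ℕ) : ℝ) + 1) = 5 := by norm_num
    rw [h1]
    nlinarith
  have hd' : HasDistortion σ j := by
    obtain ⟨a, ha, hj⟩ := hd
    refine ⟨a, ha, fun p q hp hq => ⟨(hj p q hp hq).1, (hj p q hp hq).2.trans ?_⟩⟩
    rw [hσ]
    exact mul_le_mul_of_nonneg_right (le_max_left _ _) (by positivity)
  obtain ⟨A, K, h1, h2⟩ := gen hs hc hd'
  obtain ⟨B, hB⟩ : ∃ B : R 4 ≃L[ℝ] R 4, ∀ x, B x = A x := by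
    refine ⟨(LinearEquiv.ofInjectiveEndo (A : R 4 →ₗ[ℝ] R 4) h1).toContinuousLinearEquiv,
      fun x => rfl⟩
  refine ⟨B, K, h2.1, h2.2.1, fun x hx => ?_, h2.2.2.2⟩
  rw [hB]
  exact h2.2.2.1 x hx

end Pool.Agent.Results.MP_6c077c_gt.SmallDistortionSpheres
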